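import Pool.Agent.H9.SF.FDefs

/-! FH: canonical names, the name of the generic filter, names of pairs. -/

set_option linter.unusedVariables false

open Ordinal
open scoped ZFSet

namespace SF.H31

open SF

theorem mem_ck (c x y : V) : y ∈ ck c x ↔ ∃ z ∈ x, ∃ p ∈ c, y = ZFSet.pair (ck c z) p := by
  rw [ck, ZFSet.mem_range]
  constructor
  · rintro ⟨⟨q, hq⟩, rfl⟩
    obtain ⟨z, hz, p, hp, rfl⟩ := ZFSet.mem_prod.1 hq
    exact ⟨z, hz, p, hp, by simp only [fst_pair, snd_pair]⟩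
  · rintro ⟨z, hz, p, hp, rfl⟩
    exact ⟨⟨ZFSet.pair z p, ZFSet.mem_prod.2 ⟨z, hz, p, hp, rfl⟩⟩,
      by simp only [fst_pair, snd_pair]⟩

theorem val_ck (c G : V) (hG : G ⊆ c) (hne : G.Nonempty) (x : V) : val G (ck c x) = x := by
  obtain ⟨p0, hp0⟩ := hne
  induction x using ZFSet.inductionOn with
  | _ x ih =>
    ext y
    rw [mem_val]
    constructor
    · rintro ⟨z, p, hp, h1, rfl⟩
      obtain ⟨w, hw, q, hq, h2⟩ := (mem_ck c x _).1 h1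
      obtain ⟨rfl, rfl⟩ := ZFSet.pair_inj.1 h2
      rw [ih w hw]
      exact hw
    · intro hy
      exact ⟨ck c y, p0, hp0, (mem_ck c x _).2 ⟨y, hy, p0, hG hp0, rfl⟩, (ih y hy).symm⟩

theorem val_gn (c G : V) (hG : G ⊆ c) (hne : G.Nonempty) : val G (gn c) = G := by
  ext y
  rw [mem_val]
  constructor
  · rintro ⟨z, p, hp, h1, rfl⟩
    obtain ⟨w, hw, h2⟩ := mem_imS.1 h1
    obtain ⟨rfl, rfl⟩ := ZFSet.pair_inj.1 h2
    rw [val_ck c G hG hne]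
    exact hp
  · intro hy
    exact ⟨ck c y, y, hy, mem_imS.2 ⟨y, hG hy, rfl⟩, (val_ck c G hG hne y).symm⟩

theorem val_upn (c G x y : V) (hG : G ⊆ c) (hne : G.Nonempty) :
    val G (upn c x y) = {val G x, val G y} := by
  obtain ⟨p0, hp0⟩ := hne
  ext w
  rw [mem_val, ZFSet.mem_pair]
  constructor
  · rintro ⟨z, p, hp, h1, rfl⟩
    have h2 := (ZFSet.pair_mem_prod.1 h1).1
    rcases ZFSet.mem_pair.1 h2 with rfl | rfl
    · exact Or.inl rfl
    · exact Or.inr rfl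
  · rintro (rfl | rfl)
    · exact ⟨x, p0, hp0, ZFSet.pair_mem_prod.2 ⟨ZFSet.mem_pair.2 (Or.inl rfl), hG hp0⟩, rfl⟩
    · exact ⟨y, p0, hp0, ZFSet.pair_mem_prod.2 ⟨ZFSet.mem_pair.2 (Or.inr rfl), hG hp0⟩, rfl⟩

theorem val_opn (c G x y : V) (hG : G ⊆ c) (hne : G.Nonempty) :
    val G (opn c x y) = ZFSet.pair (val G x) (val G y) := by
  unfold opn
  rw [val_upn c G _ _ hG hne, val_upn c G _ _ hG hne, val_upn c G _ _ hG hne]
  unfold ZFSet.pair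
  rw [ZFSet.pair_eq_singleton]

theorem tm_ck0 : Tm ZFm (fun _ v => ck (v 1) (v 0)) := by
  refine tm_recu (ext := fun _ v => v 0)
    (Φ := fun _ u => imS (ZFSet.prod (u 1) (u 2)) fun q =>
      ZFSet.pair (app (u 0) (fst q)) (snd q))
    ZFSet.rank (Tm.var 0) ?_ ?_ ?_
  · exact Tm.image (g := fun _ u => ZFSet.pair (app (u 1) (fst (u 0))) (snd (u 0)))
      (Tm.prod (Tm.var 1) (Tm.var 2))
      (Tm.pair (Tm.app (Tm.var 1) (Tm.fst (Tm.var 0))) (Tm.snd (Tm.var 0)))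
  · intro M k v hv y hy
    exact ZFSet.rank_lt_of_mem hy
  · intro M k v hv
    ext y
    rw [mem_ck]
    simp only [mem_imS, ZFSet.mem_prod, cons_zero, cons_succ]
    constructor
    · rintro ⟨z, hz, p, hp, rfl⟩
      refine ⟨ZFSet.pair z p, ⟨z, hz, p, hp, rfl⟩, ?_⟩
      rw [fst_pair, snd_pair, app_resS hz]
    · rintro ⟨q, ⟨z, hz, p, hp, rfl⟩, rfl⟩
      refine ⟨z, hz, p, hp, ?_⟩
      rw [fst_pair, snd_pair, app_resS hz]

theorem tm_ck {f g : (V → Prop) → (ℕ → V) → V} (hf : Tm ZFm f) (hg : Tm ZFm g) :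
    Tm ZFm (fun M v => ck (f M v) (g M v)) :=
  Tm.at2 (F := fun _ x y => ck x y)
    (tm_ck0.rn fun i => if i = 0 then 1 else 0) hf hg

theorem tm_gn {f : (V → Prop) → (ℕ → V) → V} (hf : Tm ZFm f) :
    Tm ZFm (fun M v => gn (f M v)) := by
  refine Tm.at1 (F := fun _ x => gn x) ?_ hf
  exact (Tm.image (g := fun _ u => ZFSet.pair (ck (u 1) (u 0)) (u 0)) (Tm.var 0)
    (Tm.pair (tm_ck (Tm.var 1) (Tm.var 0)) (Tm.var 0))).congr fun M k v hv => rfl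

theorem tm_upn {f g h : (V → Prop) → (ℕ → V) → V} (hf : Tm ZFm f) (hg : Tm ZFm g)
    (hh : Tm ZFm h) : Tm ZFm (fun M v => upn (f M v) (g M v) (h M v)) :=
  Tm.prod (Tm.upair hg hh) hf

theorem tm_opn {f g h : (V → Prop) → (ℕ → V) → V} (hf : Tm ZFm f) (hg : Tm ZFm g)
    (hh : Tm ZFm h) : Tm ZFm (fun M v => opn (f M v) (g M v) (h M v)) :=
  tm_upn hf (tm_upn hf hg hg) (tm_upn hf hg hh)

theorem fh : T_FH :=
  ⟨mem_ck, fun c G x hG hne => val_ck c G hG hne x, val_gn, val_upn, val_opn,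
    tm_ck (Tm.var 0) (Tm.var 1), tm_gn (Tm.var 0), tm_upn (Tm.var 0) (Tm.var 1) (Tm.var 2),
    tm_opn (Tm.var 0) (Tm.var 1) (Tm.var 2)⟩

end SF.H31
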