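import Pool.Agent.H45.SF.GT

/-! TR: transfer of definable relations along a map with values in an algebra. -/

open Ordinal Cardinal Order Set
open scoped ZFSet

namespace SF.H31

open SF

theorem bmap_le {B : V} [IsCBA B] {N' N : V} {b : El B} {σ : V → V → El B}
    (hσ : BMap N' N b σ) (x y : V) : σ x y ≤ b := by
  by_cases h : σ x y = ⊥
  · rw [h]; exact bot_le
  · rw [← hσ.tot x (hσ.dom x y h).1]
    exact le_iSup (fun y => σ x y) y

theorem tr (hZN : T_ZN) : T_TR := by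
  intro R hR B _ N' N b σ hN hσ s hs v hv
  have hs1 : ∀ q ∈ s, σ q.1 q.2 ≠ ⊥ := fun q hq h =>
    hs (le_bot_iff.1 (h ▸ Finset.inf_le (f := fun q : V × V => σ q.1 q.2) hq))
  have hb : b ≠ ⊥ := by
    intro h
    have h1 := bmap_le hσ (v 0).1 (v 0).2
    rw [h] at h1
    exact hs1 _ (hv 0) (le_bot_iff.1 h1)
  have hN' := hZN B N' N b σ hN hσ hb
  obtain ⟨φ, hφ⟩ := hR
  have h1 := hφ _ hN'.toZFm (fun i => (v i).1) (fun i => (hσ.dom _ _ (hs1 _ (hv i))).1)
  have h2 := hφ _ hN.zfc.toZFm (fun i => (v i).2) (fun i => (hσ.dom _ _ (hs1 _ (hv i))).2)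
  exact h1.symm.trans ((hσ.el s hs v hv φ).trans h2)

end SF.H31
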