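import Pool.Agent.H45.SF.UT

/-! UD: the first stage. -/

open Ordinal Cardinal Order Set
open scoped ZFSet

namespace SF.H31

open SF

theorem mor_ext {B C : V} [IsCBA B] [IsCBA C] {h k : Mor B C} (e : ∀ x, h x = k x) : h = k := by
  cases h with
  | mk f1 a1 b1 =>
    cases k with
    | mk f2 a2 b2 =>
      have e2 : f1 = f2 := funext e
      subst e2
      rfl

theorem bmor_ext {A C : BA} {h k : BMor A C} (e : ∀ x, h x = k x) : h = k := by
  cases h with
  | mk h1 b1 =>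
    cases k with
    | mk k1 c1 =>
      have e2 : h1 = k1 := mor_ext e
      subst e2
      rfl

theorem bmap_le' {B : V} [IsCBA B] {N' N : V} {b : El B} {σ : V → V → El B}
    (hσ : BMap N' N b σ) (x y : V) : σ x y ≤ b := by
  by_cases h : σ x y = ⊥
  · rw [h]; exact bot_le
  · rw [← hσ.tot x (hσ.dom x y h).1]
    exact le_iSup (fun y => σ x y) y

theorem ud (hDN : T_DN) (hUA : T_UA) (hUV : T_UV) (hBR : T_BR) (hAU : T_AU) (hG1 : T_G1)
    (hMB : T_MB) : T_UD := by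
  intro κ Z i hκ _ v hne p u0 hv F K hu
  obtain ⟨D, r, j, hD, hr, hj, hjr, hrj, hrg, -⟩ := hDN v.A F.b
  obtain ⟨rm, rb, -, -, -, -, -⟩ := hMB _ _ r.toMor
  obtain ⟨-, jb, -, -, -, -, -⟩ := hMB _ _ j.toMor
  have hrF : r F.b = ⊤ := by rw [← hj, hrj]
  have hg : ∀ x, r (v.A.g x) = D.g x := by
    intro x
    have h1 := r.base x
    have h2 : r.f ⊤ = ⊤ := hr
    rw [h2, inf_top_eq] at h1
    exact h1
  obtain ⟨-, -, hsub, -, -, -, -, -, hcode, hccode, -⟩ := hUV κ hκ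
  have hbas : (bas v.A).comp r = bas D := bmor_ext hg
  have hj0 : K.j 0 = F.h' := by
    have hu1 : F.σ (K.u 0) (Cd.code ⟨v, ⊤, hne⟩) = F.b := by rw [K.zero]; exact hu
    obtain ⟨c, -, hc2, hc3⟩ := K.k1 v.A F.b F.σ F.map F.ne F.kp 0 (Cd.code ⟨v, ⊤, hne⟩)
      (by rw [hu1]; exact F.ne)
    have hc4 : c = ⟨v, ⊤, hne⟩ := hUA.2.1 _ _ hc2
    subst hc4
    rw [hu1] at hc3
    have h1 : F.b ≤ F.σ (K.j 0) (i v).gr := hc3.trans (inf_le_right.trans inf_le_right)
    have h2 : F.σ (K.j 0) (i v).gr = F.b := le_antisymm (bmap_le' F.map _ _) h1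
    exact (hAU _ _ _ _ _ F.np F.map F.ne _ _ F.kh).2.2.1 _ h2
  refine ⟨{
    A := D
    σ := fun x y => r (F.σ x y)
    S := {⊤}
    c := fun _ => ⟨v, ⊤, hne⟩
    ι := fun _ => r
    map := ?_
    kp := ?_
    kw := ?_
    sc := ?_
    rank := ?_
    good := ?_
    cκ := ?_
    top := ?_
    onto := ?_
    ne := ?_
    dis := ?_
    sup := ?_
    val := ?_
    com := ?_ }, r, hrF, ?_, fun x y => rfl, rfl, rfl, ?_⟩
  · have h1 := hBR _ _ _ _ _ _ r.toMor F.map ⊤ (le_of_eq hrF.symm)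
    simpa only [inf_top_eq] using h1
  · show r (F.σ F.p' p) = ⊤
    rw [F.kp, hrF]
  · show r (F.σ F.w w1) = ⊤
    rw [F.kw, hrF]
  · intro x hx
    rw [← hg, ← top_le_iff, ← hrF]
    exact rm _ _ (F.sc x hx)
  · refine hsub _ ((hcode v).1 hv).1 _ ?_
    rw [hD]
    intro z hz
    exact (ZFSet.mem_sep.1 hz).1
  · rw [← hbas]
    exact hG1 _ _ _ _ _ v.good hrg
  · intro s _
    exact (hccode _).2 hv
  · rintro s rfl
    exact hr
  · intro s _ z _
    exact ⟨j z, hrj z⟩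
  · rintro s rfl h
    apply F.ne
    rw [← hj, h]
    exact jb
  · rintro s rfl t rfl h
    exact absurd rfl h
  · exact sSup_singleton
  · intro s _
    show s ≤ r (F.σ (K.u 0) (Cd.code ⟨v, ⊤, hne⟩))
    rw [K.zero, hu, hrF]
    exact le_top
  · intro s _ x hx z
    obtain ⟨y, hy, hxy⟩ := K.jG 0 x hx
    rw [hj0] at hxy
    exact inf_le_left.trans (rm _ _ (F.com x y hxy hy z))
  · intro x hx
    rw [← hjr, hx]
    exact jb
  · intro x x' hxx
    show r x' = r x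
    congr 1
    exact El.ext hxx

end SF.H31
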