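import Pool.Agent.H72.SF.XT

/-! XF: existence of frames for the base morphism. -/

set_option linter.unusedVariables false

open Ordinal Cardinal Order Set
open scoped ZFSet

namespace SF.H31

open SF

/-- facts on an elementary map of a nice pair -/
structure XfFacts (N' f : V) : Prop where
  am : ∀ x ∈ N', ∀ x2 ∈ N', (x ∈ x2 ↔ app f x ∈ app f x2) ∧ (x = x2 ↔ app f x = app f x2) ∧
    (x ⊆ x2 ↔ app f x ⊆ app f x2) ∧ (x = ∅ ↔ app f x = ∅)
  pr : ∀ x ∈ N', ∀ x2 ∈ N', ZFSet.pair x x2 ∈ N' ∧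
    app f (ZFSet.pair x x2) = ZFSet.pair (app f x) (app f x2)
  un : ∀ z' ∈ N', ∀ y y2, app f z' = ZFSet.pair y y2 → ∃ x ∈ N', ∃ x2 ∈ N',
    app f x = y ∧ app f x2 = y2
  int : ∀ x ∈ N', ∀ x2 ∈ N', x ∩ x2 ∈ N' ∧ app f (x ∩ x2) = app f x ∩ app f x2
  tr : N'.IsTransitive

theorem XfFacts.pair_mem {N' f : V} (h : XfFacts N' f) {x y : V} (hxy : ZFSet.pair x y ∈ N') :
    x ∈ N' ∧ y ∈ N' := by
  unfold ZFSet.pair at hxy
  have h2 : ({x, y} : V) ∈ N' := h.tr.mem_trans (ZFSet.mem_pair.2 (Or.inr rfl)) hxy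
  exact ⟨h.tr.mem_trans (ZFSet.mem_pair.2 (Or.inl rfl)) h2,
    h.tr.mem_trans (ZFSet.mem_pair.2 (Or.inr rfl)) h2⟩

theorem xf_facts (hAM : T_AM) (hAP : T_AP) {N' N f : V} (hnp : NP N' N) (hne : (⊤ : El B0) ≠ ⊥)
    {σ : V → V → El B0} (hσ : BMap N' N ⊤ σ) (h1 : ∀ x ∈ N', σ x (app f x) = ⊤)
    (h2 : ∀ x y, σ x y ≠ ⊥ → x ∈ N' ∧ y = app f x) : XfFacts N' f := by
  obtain ⟨a1, a2, a3, a4, -, -⟩ := hAP B0 N' N ⊤ σ hnp hσ hne
  refine ⟨?_, ?_, ?_, ?_, a4⟩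
  · intro x hx x2 hx2
    refine hAM B0 N' N ⊤ σ hnp hσ x _ x2 _ ?_
    rw [h1 x hx, h1 x2 hx2, inf_idem]
    exact hne
  · intro x hx x2 hx2
    obtain ⟨b1, b2, -⟩ := a1 x hx x2 hx2
    refine ⟨b1, ?_⟩
    have h3 := b2 (app f x) (app f x2)
    rw [h1 x hx, h1 x2 hx2, inf_idem, top_le_iff] at h3
    exact (h2 _ _ (by rw [h3]; exact hne)).2.symm
  · intro z' hz' y y2 hzy
    have h3 := h1 z' hz'
    rw [hzy] at h3
    obtain ⟨x, hx, x2, hx2, -, h4⟩ := a2 z' y y2 (by rw [h3]; exact hne)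
    rw [h3, top_le_iff] at h4
    have h5 : σ x y = ⊤ := (inf_eq_top_iff.1 h4).1
    have h6 : σ x2 y2 = ⊤ := (inf_eq_top_iff.1 h4).2
    exact ⟨x, hx, x2, hx2, (h2 _ _ (by rw [h5]; exact hne)).2.symm,
      (h2 _ _ (by rw [h6]; exact hne)).2.symm⟩
  · intro x hx x2 hx2
    obtain ⟨b1, b2⟩ := a3 x hx x2 hx2
    refine ⟨b1, ?_⟩
    have h3 := b2 (app f x) (app f x2)
    rw [h1 x hx, h1 x2 hx2, inf_idem, top_le_iff] at h3
    exact (h2 _ _ (by rw [h3]; exact hne)).2.symm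

theorem xf (hLNP : T_LNP) (hXA : T_XA) (hXH : T_XH) (hXE : T_XE) (hXG : T_XG) (hXS : T_XS)
    (hNR : T_NR) (hAM : T_AM) (hAP : T_AP) (hAH : T_AH) : T_XF := by
  intro C p s c0 hc0
  obtain ⟨hA1, hA2, -, -, hA5, -⟩ := hXA
  obtain ⟨hH1, hH2, hH3, -, -, hH6, -⟩ := hXH
  have hne : (⊤ : El B0) ≠ ⊥ := by
    intro h
    have h1 : (⊤ : El B0).val = (⊥ : El B0).val := by rw [h]
    rw [hH6, El.bot_val] at h1
    rw [h1] at hA2
    exact ZFSet.notMem_empty _ hA2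
  set KK : V := resS P0 (cl P0 leP0) with hKK
  obtain ⟨N', N, f, hnp, hf, Q', hQ', hQ⟩ := hLNP (ZFSet.pair p (ZFSet.pair s
    (ZFSet.pair c0.val (ZFSet.pair w1 (ZFSet.pair B0 (ZFSet.pair C.B (ZFSet.pair C.g.gr
    (ZFSet.pair HC (ZFSet.pair P0 (ZFSet.pair KK (ZFSet.pair (prm C.g)
    (⊤ : El C.B).val)))))))))))
  obtain ⟨σ0, hσ0, h01, h02⟩ := hXE B0 N' N f hf ⊤
  have X := xf_facts hAM hAP hnp hne hσ0 h01 h02
  obtain ⟨p', hp', r1, hr1, hp, hr⟩ := X.un _ hQ' _ _ hQ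
  obtain ⟨s', hs', r2, hr2, hs, hr⟩ := X.un _ hr1 _ _ hr
  obtain ⟨c', hc', r3, hr3, hc, hr⟩ := X.un _ hr2 _ _ hr
  obtain ⟨w, hw', r4, hr4, hw, hr⟩ := X.un _ hr3 _ _ hr
  obtain ⟨B', hB', r5, hr5, hB, hr⟩ := X.un _ hr4 _ _ hr
  obtain ⟨C', hC', r6, hr6, hC, hr⟩ := X.un _ hr5 _ _ hr
  obtain ⟨h', hh', r7, hr7, hh, hr⟩ := X.un _ hr6 _ _ hr
  obtain ⟨H', hH', r8, hr8, hH, hr⟩ := X.un _ hr7 _ _ hr
  obtain ⟨P', hP', r9, hr9, hP, hr⟩ := X.un _ hr8 _ _ hr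
  obtain ⟨K', hK', r10, hr10, hK, hr⟩ := X.un _ hr9 _ _ hr
  obtain ⟨m', hm', t', ht', hm, ht⟩ := X.un _ hr10 _ _ hr
  -- the filter
  have hc0v : c0.val ≠ ∅ := by
    intro h
    apply hc0
    apply El.ext
    rw [h, El.bot_val]
  have hcne : c' ≠ ∅ := by
    intro h
    apply hc0v
    rw [← hc]
    exact (X.am c' hc' c' hc').2.2.2.1 h
  have hmemC : ∀ x ∈ N', (x ∈ C' ↔ app f x ∈ C.B) := fun x hx => by
    rw [← hC]; exact (X.am x hx C' hC').1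
  have hcC : c' ∈ C' := (hmemC c' hc').2 (by rw [hc]; exact c0.mem)
  obtain ⟨G', hG, hcG⟩ := hXG N' C' c' hnp.ctb (by
    intro x hx y hy
    have hxN : x ∈ N' := X.tr.mem_trans hx hC'
    have hyN : y ∈ N' := X.tr.mem_trans hy hC'
    obtain ⟨h1, h2⟩ := X.int x hxN y hyN
    rw [hmemC _ h1, h2]
    exact C.cba.inter _ ((hmemC x hxN).1 hx) _ ((hmemC y hyN).1 hy)) hcC hcne
  -- the top
  have htC : t' ∈ C' := (hmemC t' ht').2 (by rw [ht]; exact (⊤ : El C.B).mem)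
  have htG : t' ∈ G' := by
    obtain ⟨y, hy⟩ := hG.ne
    have hyC := hG.sub hy
    have hyN : y ∈ N' := X.tr.mem_trans hyC hC'
    refine hG.up y hy t' htC ?_
    rw [(X.am y hyN t' ht').2.2.1, ht]
    exact El.le_iff.1 (le_top : (⟨app f y, (hmemC y hyN).1 hyC⟩ : El C.B) ≤ ⊤)
  have htop : ZFSet.pair P' t' ∈ h' := by
    obtain ⟨h1, h2⟩ := X.pr P' hP' t' ht'
    rw [(X.am _ h1 h' hh').1, h2, hP, ht, hh]
    unfold Mor.gr
    rw [ZFSet.mem_range]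
    refine ⟨⊤, ?_⟩
    show ZFSet.pair (⊤ : El B0).val (C.g ⊤).val = _
    rw [C.unit, hH6]
  have hG0 : NGen N' B' (pull B' h' G') := by
    refine hNR B0 N' N ⊤ σ0 hnp hσ0 hne B0 C.B C.g m' B' C' h' G' ?_ ?_ ?_ ?_ hG
      ⟨P', t', htop, htG⟩
    · rw [← hm]; exact h01 _ hm'
    · have := h01 _ hB'
      rwa [hB] at this
    · have := h01 _ hC'
      rwa [hC] at this
    · have := h01 _ hh'
      rwa [hh] at this
  obtain ⟨q, hq, hdq, hqx⟩ := hXS B0 N' N ⊤ σ0 hnp hσ0 hne H' w B' P' K' (pull B' h' G')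
    (by have := h01 _ hH'; rwa [hH] at this) (by have := h01 _ hw'; rwa [hw] at this)
    (by have := h01 _ hB'; rwa [hB] at this) (by have := h01 _ hP'; rwa [hP] at this)
    (by have := h01 _ hK'; rwa [hK] at this) hG0
  obtain ⟨-, -, hAH3⟩ := hAH B0 N' N ⊤ σ0 hnp hσ0 hne H'
    (by have := h01 _ hH'; rwa [hH] at this)
  obtain ⟨δ, hδ, -, -, -, -, -⟩ := hAH3 w (by have := h01 _ hw'; rwa [hw] at this)
  -- the condition
  set T : V := imS N' (fun r => ev w r G') with hT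
  have hTc : ((T : V) : Set V).Countable := by
    have h1 : ((T : V) : Set V) = (fun r => ev w r G') '' ((N' : V) : Set V) := by
      ext y
      constructor
      · intro hy
        obtain ⟨r, hr, e⟩ := mem_imS.1 (show y ∈ T from hy)
        exact ⟨r, hr, e⟩
      · rintro ⟨r, hr, e⟩
        exact mem_imS.2 ⟨r, hr, e⟩
    rw [h1]
    exact hnp.ctb.image _
  have hTs : ∀ x ∈ T, x ⊆ δ.toZFSet := by
    intro x hx
    obtain ⟨r, -, rfl⟩ := mem_imS.1 hx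
    rw [← hδ]
    intro z hz
    exact (ZFSet.mem_sep.1 hz).1
  have hq2 : insert (ZFSet.pair w T) q ∈ P0 := by
    have h1 := hA5 q hq δ (hdq.trans hδ) T hTc hTs
    rwa [← hδ] at h1
  set q2 : V := insert (ZFSet.pair w T) q with hq2d
  obtain ⟨hb1, hb2, hb3⟩ := hH2 q2 hq2
  have hbne : (⟨cl P0 leP0 q2, hb1⟩ : El B0) ≠ ⊥ := by
    intro h
    apply hb3
    have h1 := congrArg El.val h
    rw [El.bot_val] at h1
    exact h1
  obtain ⟨σ, hσ, h1, h2⟩ := hXE B0 N' N f hf ⟨cl P0 leP0 q2, hb1⟩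
  refine ⟨{
    N' := N'
    N := N
    b := ⟨cl P0 leP0 q2, hb1⟩
    σ := σ
    w := w
    B' := B'
    C' := C'
    h' := h'
    p' := p'
    G' := G'
    np := hnp
    ne := hbne
    map := hσ
    kw := by have := h1 _ hw'; rwa [hw] at this
    kB := by have := h1 _ hB'; rwa [hB] at this
    kC := by have := h1 _ hC'; rwa [hC] at this
    kh := by have := h1 _ hh'; rw [hh] at this; exact this
    kp := by have := h1 _ hp'; rwa [hp] at this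
    gen := hG
    top := ⟨P', t', htop, htG⟩
    com := ?_
    sc := ?_ }, s', c', ?_, ?_, hcG⟩
  · intro x y hxy hy z
    by_cases hz : σ x z = ⊥
    · rw [hz]; exact bot_le
    · obtain ⟨hx, rfl⟩ := h2 x z hz
      have hxyN : ZFSet.pair x y ∈ N' := X.tr.mem_trans hxy hh'
      have hyN := (X.pair_mem hxyN).2
      have h3 : app f x ∈ B0 := by
        have h4 := (X.am _ hxyN h' hh').1.1 hxy
        rw [(X.pr x hx y hyN).2, hh] at h4
        unfold Mor.gr at h4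
        rw [ZFSet.mem_range] at h4
        obtain ⟨a, ha⟩ := h4
        have h5 := (ZFSet.pair_inj.1 ha).1
        rw [← h5]
        exact a.mem
      have hxB : x ∈ B' := by
        rw [(X.am x hx B' hB').1, hB]
        exact h3
      have hxp : x ∈ pull B' h' G' := ZFSet.mem_sep.2 ⟨hxB, y, hy, hxy⟩
      obtain ⟨u, hu, huq, huP, y', hy1, hy2, hy3, hy4⟩ := hqx x hxp
      have hy'N : y' ∈ N' := (h02 _ _ (by rw [hy4]; exact hne)).1
      have h5 : cl P0 leP0 u = app f y' := (h02 _ _ (by rw [hy4]; exact hne)).2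
      have h6 : cl P0 leP0 q2 ⊆ cl P0 leP0 u := by
        refine hH3 u huP q2 hq2 fun z hz => ?_
        rw [hq2d]
        exact ZFSet.mem_insert_iff.2 (Or.inr (huq hz))
      have h7 : app f y' ⊆ app f x := (X.am y' hy'N x hx).2.2.1.1 hy3
      have h8 : mkEl B0 (app f x) = ⟨app f x, h3⟩ := by
        unfold mkEl
        rw [dif_pos h3]
      refine (?_ : σ x (app f x) ≤ mkEl B0 (app f x))
      rw [h8, h1 x hx]
      refine El.le_iff.2 ?_
      intro z hz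
      apply h7
      rw [← h5]
      exact h6 hz
  · intro r hr
    refine (?_ : (⟨cl P0 leP0 q2, hb1⟩ : El B0) ≤ acc w (ev w r G'))
    refine El.le_iff.2 ?_
    refine hH1 q2 hq2 w T ?_ (ev w r G') (mem_imS.2 ⟨r, hr, rfl⟩)
    rw [hq2d]
    exact ZFSet.mem_insert_iff.2 (Or.inl rfl)
  · have := h1 _ hs'
    rwa [hs] at this
  · have := h1 _ hc'
    rwa [hc] at this

end SF.H31
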